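import Pool.Agent.H85.G1.Law
import Pool.Agent.H43.G1.Real

/-!
# T2, module CONT: continuity of the section and nonvanishing
-/

open Finset

namespace Pool.Agent.H30.G1

open Pool.Agent.H95.G1 Pool.Agent.H95.TB Pool.Agent.H2.G1 Pool.Agent.H2.G1.LAW

lemma w_bd {d : ED} (hv : Valid d) : d.be 0 + d.be 1 + d.be 2 ≤ d.w ∧ d.w ≤ 3 * (d.be 0 + d.be 1 + d.be 2) := by
  have h0 := hv.be0 0
  have h1 := hv.be0 1
  have h2 := hv.be0 2
  cases hb : d.b
  · rw [w_f hb]; constructor <;> linarith
  · rw [w_t hb]; constructor <;> linarith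

lemma w0_bd {d : ED} (hv : Valid d) : d.al 0 + d.al 1 + d.al 2 ≤ d.w0 := by
  have h0 := hv.al0 0
  have h1 := hv.al0 1
  have h2 := hv.al0 2
  cases hb : d.b
  · rw [w0_f hb]; linarith
  · rw [w0_t hb]; linarith

lemma ue0 (d : ED) : UE d 0 = ((d.p + d.w / 2 : ℝ) : ℂ) * ee (d.c 2 - ((1 - d.p) * d.T - d.M) / d.w) := rfl
lemma ue1 (d : ED) : UE d 1 = ((d.w0 + d.w / 2 : ℝ) : ℂ) * (ee (3 * d.A) * (Vb d.b fun y => d.c y / (1 - d.p)).1) := rfl
lemma ue2 (d : ED) : UE d 2 = ((d.w0 + d.w / 2 : ℝ) : ℂ) * (ee (4 * d.A) * (Vb d.b fun y => d.c y / (1 - d.p)).2) := rfl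

/-- the vectors do not vanish -/
lemma ue_ne {d : ED} (hv : Valid d) : UE d ≠ 0 := by
  intro h
  have h0 : UE d 0 = 0 := congrFun h 0
  have h1 : UE d 1 = 0 := congrFun h 1
  have h2 : UE d 2 = 0 := congrFun h 2
  rw [ue0, mul_eq_zero] at h0
  rw [ue1, mul_eq_zero, mul_eq_zero] at h1
  rw [ue2, mul_eq_zero, mul_eq_zero] at h2
  have a0 : d.p + d.w / 2 = 0 := by
    rcases h0 with h0 | h0
    · exact_mod_cast h0
    · exact absurd h0 (ee_ne _)
  have hb := w_bd hv
  have hb0 := w0_bd hv
  have hp := hv.p0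
  have e0 := hv.be0 0
  have e1 := hv.be0 1
  have e2 := hv.be0 2
  have hs := hv.sum
  have hw0 : 0 < d.w0 + d.w / 2 := by linarith
  have hw0' : ((d.w0 + d.w / 2 : ℝ) : ℂ) ≠ 0 := by exact_mod_cast hw0.ne'
  have k1 : (Vb d.b fun y => d.c y / (1 - d.p)).1 = 0 := by
    rcases h1 with h1 | h1 | h1
    · exact absurd h1 hw0'
    · exact absurd h1 (ee_ne _)
    · exact h1
  have k2 : (Vb d.b fun y => d.c y / (1 - d.p)).2 = 0 := by
    rcases h2 with h1 | h1 | h1
    · exact absurd h1 hw0'
    · exact absurd h1 (ee_ne _)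
    · exact h1
  unfold Vb at k1 k2
  by_cases hb : d.b = true
  · rw [if_pos hb] at k1
    exact one_ne_zero k1
  · rw [if_neg hb] at k2
    exact one_ne_zero k2

lemma M_poly (d : ED) : d.M = if d.b = true then d.c 0 / 3 * (9 * d.be 0 / 2 + 2 * d.be 1 + d.be 2) + d.c 1 * (d.be 0 + d.be 1 / 2) +
      d.c 2 * (2 * d.be 0 + d.be 1 + d.be 2 / 2) else d.c 0 / 2 * (2 * d.be 0 + d.be 1) + d.c 1 * (d.be 0 + d.be 1 / 2) +
      d.c 2 * (2 * d.be 0 + d.be 1 + d.be 2 / 2) := by
  cases hb : d.b
  · rw [M_f hb]; simp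
  · rw [M_t hb]; simp

section cont

variable {X : Type*} [TopologicalSpace X]

/-- the vectors of the base are continuous -/
lemma vb_cont (b : Bool) {h : X → Fin 3 → ℝ} {S : Set X} (hh : ∀ y, ContinuousOn (fun x => h x y) S) :
    ContinuousOn (fun x => (Vb b (h x)).1) S ∧ ContinuousOn (fun x => (Vb b (h x)).2) S := by
  have h1 := hh 1
  have h2 := hh 2
  cases b
  · constructor
    · have : ContinuousOn (fun x => φ (h x 1 + h x 2) (-(h x 2 / 4))) S :=
        continuous_φ.comp_continuousOn ((h1.add h2).prodMk (h2.div_const 4).neg)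
      exact this
    · exact continuousOn_const
  · constructor
    · exact continuousOn_const
    · have : ContinuousOn (fun x => φ (h x 1 + h x 2) (h x 2 / 3)) S :=
        continuous_φ.comp_continuousOn ((h1.add h2).prodMk (h2.div_const 3))
      exact this

variable {d : X → ED} {S : Set X} (b : Bool) (hb : ∀ x, (d x).b = b)
  (hal : ∀ y, Continuous fun x => (d x).al y) (hbe : ∀ y, Continuous fun x => (d x).be y)
  (hp : Continuous fun x => (d x).p) (hT : Continuous fun x => (d x).T)

include hal hbe in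
lemma c_cont (y : Fin 3) : Continuous fun x => (d x).c y := (hal y).add (hbe y)

include hb hbe in
lemma w_cont : Continuous fun x => (d x).w := by
  unfold ED.w
  simp only [hb]
  exact continuous_finsetSum _ fun y _ => continuous_const.mul (hbe y)

include hb hal in
lemma w0_cont : Continuous fun x => (d x).w0 := by
  unfold ED.w0
  simp only [hb]
  exact continuous_finsetSum _ fun y _ => continuous_const.mul (hal y)

include hb hal hbe in
lemma M_cont : Continuous fun x => (d x).M := by
  have c0 := c_cont hal hbe 0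
  have c1 := c_cont hal hbe 1
  have c2 := c_cont hal hbe 2
  have b0 := hbe 0
  have b1 := hbe 1
  have b2 := hbe 2
  simp only [M_poly, hb]
  cases b
  · simp only [Bool.false_eq_true, if_false]
    fun_prop
  · simp only [if_true]
    fun_prop

include hb hal hbe hT in
/-- the case without cone point -/
lemma cont_p0 (h0 : ∀ x, (d x).p = 0) : Continuous fun x => UE (d x) := by
  have cw := w_cont b hb hbe
  have cw0 := w0_cont b hb hal
  have cM := M_cont b hb hal hbe
  have cc := c_cont hal hbe
  have hA : ∀ x, (d x).A = (if b = true then 2 / 3 else 3 / 4) * (d x).c 2 := by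
    intro x
    unfold ED.A
    rw [h0, hb]
    ring
  have cA : Continuous fun x => (d x).A := by
    simp only [hA]
    exact continuous_const.mul (cc 2)
  have hV := vb_cont (S := Set.univ) b (h := fun x y => (d x).c y / (1 - (d x).p)) (fun y => by
    simp only [h0, sub_zero, div_one]
    exact (cc y).continuousOn)
  have cV1 := continuousOn_univ.1 hV.1
  have cV2 := continuousOn_univ.1 hV.2
  refine continuous_pi fun j => ?_
  fin_cases j
  · change Continuous fun x => UE (d x) 0
    have : (fun x => UE (d x) 0) = fun x => ee ((d x).c 2) * (φ (d x).w (-((d x).T - (d x).M)) / 2) := by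
      funext x
      rw [ue0, φ_eq, h0, sub_eq_add_neg, ee_add]
      have e : -((((1:ℝ) - 0) * (d x).T - (d x).M) / (d x).w) = -((d x).T - (d x).M) / (d x).w := by ring
      rw [e]
      push_cast
      ring
    rw [this]
    exact (continuous_ee.comp (cc 2)).mul ((continuous_φ.comp (cw.prodMk (hT.sub cM).neg)).div_const 2)
  · change Continuous fun x => UE (d x) 1
    simp only [ue1, hb]
    exact (Complex.continuous_ofReal.comp (cw0.add (cw.div_const 2))).mul
      ((continuous_ee.comp (continuous_const.mul cA)).mul cV1)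
  · change Continuous fun x => UE (d x) 2
    simp only [ue2, hb]
    exact (Complex.continuous_ofReal.comp (cw0.add (cw.div_const 2))).mul
      ((continuous_ee.comp (continuous_const.mul cA)).mul cV2)

end cont

/-- bounds at the cone point -/
lemma M_bd {d : ED} (hv : Valid d) (h0 : ∀ y, d.al y = 0) : 0 ≤ d.M ∧ d.M ≤ 3 * ((1 - d.p) * (1 - d.p)) := by
  have e0 := hv.be0 0
  have e1 := hv.be0 1
  have e2 := hv.be0 2
  have hs := hv.sum
  rw [h0, h0, h0] at hs
  have hp : 1 - d.p = d.be 0 + d.be 1 + d.be 2 := by linarith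
  have hc : ∀ y, d.c y = d.be y := fun y => by rw [c_def, h0, zero_add]
  rw [hp]
  have k01 := mul_nonneg e0 e1
  have k02 := mul_nonneg e0 e2
  have k12 := mul_nonneg e1 e2
  have k00 := mul_nonneg e0 e0
  have k11 := mul_nonneg e1 e1
  have k22 := mul_nonneg e2 e2
  cases hb : d.b
  · rw [M_f hb, hc, hc, hc]
    constructor <;> nlinarith
  · rw [M_t hb, hc, hc, hc]
    constructor <;> nlinarith

lemma ang_bd {d : ED} (hv : Valid d) (h0 : ∀ y, d.al y = 0) (hT0 : 0 ≤ d.T) (hT : d.T ≤ d.w) :
    |d.c 2 - ((1 - d.p) * d.T - d.M) / d.w| ≤ 4 * (1 - d.p) := by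
  have hM := M_bd hv h0
  have e0 := hv.be0 0
  have e1 := hv.be0 1
  have e2 := hv.be0 2
  have hs := hv.sum
  rw [h0, h0, h0] at hs
  have hw := w_bd hv
  have hs0 : 0 ≤ 1 - d.p := by linarith
  have hc : d.c 2 = d.be 2 := by rw [c_def, h0, zero_add]
  have hq : |((1 - d.p) * d.T - d.M) / d.w| ≤ 3 * (1 - d.p) := by
    rcases hs0.eq_or_lt with h | h
    · have : d.w = 0 := by linarith
      rw [this, div_zero, abs_zero]
      linarith
    · have hw0 : 0 < d.w := by linarith
      rw [abs_div, abs_of_pos hw0, div_le_iff₀ hw0, abs_le]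
      have k1 : (1 - d.p) * (1 - d.p) ≤ (1 - d.p) * d.w := mul_le_mul_of_nonneg_left (by linarith) hs0
      have k2 : (1 - d.p) * d.T ≤ (1 - d.p) * d.w := mul_le_mul_of_nonneg_left hT hs0
      have k3 : 0 ≤ (1 - d.p) * d.T := mul_nonneg hs0 hT0
      have k4 : 0 ≤ (1 - d.p) * d.w := mul_nonneg hs0 hw0.le
      constructor
      · nlinarith [hM.2]
      · nlinarith [hM.1]
  rw [abs_le] at hq ⊢
  constructor <;> linarith [hq.1, hq.2]

section cont2

variable {X : Type*} [TopologicalSpace X]

/-- the vectors of the base are continuous -/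
lemma vb_contAt (b : Bool) {h : X → Fin 3 → ℝ} {x₀ : X} (hh : ∀ y, ContinuousAt (fun x => h x y) x₀) :
    ContinuousAt (fun x => (Vb b (h x)).1) x₀ ∧ ContinuousAt (fun x => (Vb b (h x)).2) x₀ := by
  have h1 := hh 1
  have h2 := hh 2
  cases b
  · constructor
    · have : ContinuousAt (fun x => φ (h x 1 + h x 2) (-(h x 2 / 4))) x₀ :=
        continuous_φ.continuousAt.comp ((h1.add h2).prodMk (h2.div_const 4).neg)
      exact this
    · exact continuousAt_const
  · constructor
    · exact continuousAt_const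
    · have : ContinuousAt (fun x => φ (h x 1 + h x 2) (h x 2 / 3)) x₀ :=
        continuous_φ.continuousAt.comp ((h1.add h2).prodMk (h2.div_const 3))
      exact this

lemma vb_norm (b : Bool) {h : Fin 3 → ℝ} (h0 : ∀ y, 0 ≤ h y) (h1 : h 1 + h 2 ≤ 1) :
    ‖(Vb b h).1‖ ≤ 1 ∧ ‖(Vb b h).2‖ ≤ 1 := by
  have k : |h 1 + h 2| ≤ 1 := by
    rw [abs_of_nonneg (add_nonneg (h0 1) (h0 2))]; exact h1
  cases b
  · refine ⟨?_, ?_⟩
    · change ‖φ (h 1 + h 2) (-(h 2 / 4))‖ ≤ 1
      rw [norm_φ]; exact k
    · change ‖(1 : ℂ)‖ ≤ 1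
      simp
  · refine ⟨?_, ?_⟩
    · change ‖(1 : ℂ)‖ ≤ 1
      simp
    · change ‖φ (h 1 + h 2) (h 2 / 3)‖ ≤ 1
      rw [norm_φ]; exact k

/-- the case with cone point -/
lemma cont_al0 {d : X → ED} {S : Set X} (b : Bool) (hb : ∀ x, (d x).b = b)
    (hbe : ∀ y, Continuous fun x => (d x).be y)
    (hp : Continuous fun x => (d x).p) (hT : Continuous fun x => (d x).T) (h0 : ∀ x y, (d x).al y = 0)
    (hS : ∀ x ∈ S, Valid (d x) ∧ 0 ≤ (d x).T ∧ (d x).T ≤ (d x).w) : ContinuousOn (fun x => UE (d x)) S := by
  have hal : ∀ y, Continuous fun x => (d x).al y := fun y => by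
    simp only [h0]; exact continuous_const
  have cw := w_cont b hb hbe
  have cw0 := w0_cont b hb hal
  have cM := M_cont b hb hal hbe
  have cc := c_cont hal hbe
  intro x₀ hx₀
  obtain ⟨hv, hT0, hTw⟩ := hS x₀ hx₀
  have hs := hv.sum
  rw [h0, h0, h0] at hs
  have e0 := hv.be0 0
  have e1 := hv.be0 1
  have e2 := hv.be0 2
  have hwb := w_bd hv
  rw [continuousWithinAt_pi]
  rcases eq_or_ne (d x₀).p 1 with hp1 | hp1
  · -- the cone point
    have hw : (d x₀).w = 0 := by linarith [hwb.1, hwb.2]
    have hw00 : ∀ x, (d x).w0 = 0 := fun x => by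
      unfold ED.w0
      exact sum_eq_zero fun y _ => by rw [h0, mul_zero]
    have hz : ∀ g : X → ℂ, (∀ x ∈ S, ‖g x‖ ≤ 1) →
        ContinuousWithinAt (fun x => (((d x).w0 + (d x).w / 2 : ℝ) : ℂ) * g x) S x₀ := by
      intro g hg
      unfold ContinuousWithinAt
      beta_reduce
      rw [hw00 x₀, hw, zero_div, add_zero, Complex.ofReal_zero, zero_mul]
      refine squeeze_zero_norm' (a := fun x => |(d x).w0 + (d x).w / 2|) ?_ ?_
      · filter_upwards [self_mem_nhdsWithin] with x hx
        rw [norm_mul, Complex.norm_real, Real.norm_eq_abs]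
        exact mul_le_of_le_one_right (abs_nonneg _) (hg x hx)
      · have : Continuous fun x => |(d x).w0 + (d x).w / 2| := (cw0.add (cw.div_const 2)).abs
        have h2 := this.continuousWithinAt (s := S) (x := x₀)
        unfold ContinuousWithinAt at h2
        beta_reduce at h2
        rwa [hw00 x₀, hw, zero_div, add_zero, abs_zero] at h2
    have hV : ∀ x ∈ S, ‖(Vb (d x).b fun y => (d x).c y / (1 - (d x).p)).1‖ ≤ 1 ∧
        ‖(Vb (d x).b fun y => (d x).c y / (1 - (d x).p)).2‖ ≤ 1 := by
      intro x hx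
      obtain ⟨hv', -, -⟩ := hS x hx
      have hs' := hv'.sum
      rw [h0, h0, h0] at hs'
      have e0' := hv'.be0 0
      have e1' := hv'.be0 1
      have e2' := hv'.be0 2
      have hc : ∀ y, (d x).c y = (d x).be y := fun y => by rw [c_def, h0, zero_add]
      have hp' : 0 ≤ 1 - (d x).p := by linarith
      refine vb_norm _ (fun y => div_nonneg (by rw [hc]; exact hv'.be0 y) hp') ?_
      rw [hc, hc, ← add_div]
      exact div_le_one_of_le₀ (by linarith) hp'
    intro j
    fin_cases j
    · change ContinuousWithinAt (fun x => UE (d x) 0) S x₀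
      simp only [ue0]
      refine (Complex.continuous_ofReal.comp (hp.add (cw.div_const 2))).continuousWithinAt.mul
        (continuous_ee.continuousAt.comp_continuousWithinAt ?_)
      have hc2 : (d x₀).c 2 = 0 := by rw [c_def, h0]; linarith
      unfold ContinuousWithinAt
      beta_reduce
      rw [hc2, hw, div_zero, sub_zero]
      refine squeeze_zero_norm' (a := fun x => 4 * (1 - (d x).p)) ?_ ?_
      · filter_upwards [self_mem_nhdsWithin] with x hx
        obtain ⟨hv', h1, h2⟩ := hS x hx
        rw [Real.norm_eq_abs]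
        exact ang_bd hv' (h0 x) h1 h2
      · have : Continuous fun x => 4 * (1 - (d x).p) := continuous_const.mul (continuous_const.sub hp)
        have h2 := this.continuousWithinAt (s := S) (x := x₀)
        unfold ContinuousWithinAt at h2
        beta_reduce at h2
        rwa [hp1, sub_self, mul_zero] at h2
    · change ContinuousWithinAt (fun x => UE (d x) 1) S x₀
      simp only [ue1]
      refine hz _ fun x hx => ?_
      rw [norm_mul, norm_ee, one_mul]
      exact (hV x hx).1
    · change ContinuousWithinAt (fun x => UE (d x) 2) S x₀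
      simp only [ue2]
      refine hz _ fun x hx => ?_
      rw [norm_mul, norm_ee, one_mul]
      exact (hV x hx).2
  · -- away from the cone point
    have hp' : 1 - (d x₀).p ≠ 0 := fun h => hp1 (by linarith)
    have hp2 : 0 < 1 - (d x₀).p := lt_of_le_of_ne (by linarith) (Ne.symm hp')
    have hw : (d x₀).w ≠ 0 := by
      have : 0 < (d x₀).w := by linarith [hwb.1]
      exact this.ne'
    have cw' := cw.continuousAt (x := x₀)
    have cw0' := cw0.continuousAt (x := x₀)
    have cM' := cM.continuousAt (x := x₀)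
    have cT' := hT.continuousAt (x := x₀)
    have cp' : ContinuousAt (fun x => 1 - (d x).p) x₀ := (continuous_const.sub hp).continuousAt
    have cc' : ∀ y, ContinuousAt (fun x => (d x).c y) x₀ := fun y => (cc y).continuousAt
    have cPhi : ContinuousAt (fun x => (d x).Phi) x₀ := by
      unfold ED.Phi
      simp only [hb]
      exact ((cT'.sub (cM'.div cp' hp')).div cw' hw).add (continuousAt_const.mul ((cc' 2).div cp' hp'))
    have cA : ContinuousAt (fun x => (d x).A) x₀ := by
      unfold ED.A
      simp only [hb]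
      exact (continuousAt_const.mul (cc' 2)).add ((hp.continuousAt.mul cPhi).div_const 2)
    have hV := vb_contAt (x₀ := x₀) b (h := fun x y => (d x).c y / (1 - (d x).p)) fun y => (cc' y).div cp' hp'
    intro j
    refine ContinuousAt.continuousWithinAt ?_
    fin_cases j
    · change ContinuousAt (fun x => UE (d x) 0) x₀
      simp only [ue0]
      exact (Complex.continuous_ofReal.comp (hp.add (cw.div_const 2))).continuousAt.mul
        (continuous_ee.continuousAt.comp ((cc' 2).sub (((cp'.mul cT').sub cM').div cw' hw)))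
    · change ContinuousAt (fun x => UE (d x) 1) x₀
      simp only [ue1, hb]
      exact (Complex.continuous_ofReal.comp (cw0.add (cw.div_const 2))).continuousAt.mul
        ((continuous_ee.continuousAt.comp (continuousAt_const.mul cA)).mul hV.1)
    · change ContinuousAt (fun x => UE (d x) 2) x₀
      simp only [ue2, hb]
      exact (Complex.continuous_ofReal.comp (cw0.add (cw.div_const 2))).continuousAt.mul
        ((continuous_ee.continuousAt.comp (continuousAt_const.mul cA)).mul hV.2)

end cont2

/-- the cells with cone point -/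
def cone (f : Fin 24) : Bool := decide (f.1 < 5 ∨ (13 ≤ f.1 ∧ f.1 < 17))

lemma cone_al : ∀ f : Fin 24, cone f = true → ∀ s : Fin 5, ∀ y : Fin 3, tb f s % 8 ≠ y.1 := by decide

lemma cone_p : ∀ f : Fin 24, cone f = false → ∀ s : Fin 5, tb f s % 8 ≠ 3 := by decide

/-- CONT -/
theorem cont : CONT := by
  refine ⟨fun f => ?_, fun f P hP => ue_ne (Pool.Agent.H43.G1.val f P hP).1⟩
  have hap : ∀ s : Fin 5, Continuous fun P : Fin 5 → ℝ => P s := fun s => continuous_apply s
  have hal : ∀ y, Continuous fun P : Fin 5 → ℝ => (ed f P).al y := fun y => by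
    change Continuous fun P : Fin 5 → ℝ => ∑ s, if tb f s % 8 = y.1 then P s else 0
    refine continuous_finsetSum _ fun s _ => ?_
    by_cases h : tb f s % 8 = y.1
    · simp only [if_pos h]; exact hap s
    · simp only [if_neg h]; exact continuous_const
  have hbe : ∀ y, Continuous fun P : Fin 5 → ℝ => (ed f P).be y := fun y => by
    change Continuous fun P : Fin 5 → ℝ => ∑ s, if tb f s % 8 = 4 + y.1 then P s else 0
    refine continuous_finsetSum _ fun s _ => ?_
    by_cases h : tb f s % 8 = 4 + y.1
    · simp only [if_pos h]; exact hap s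
    · simp only [if_neg h]; exact continuous_const
  have hp : Continuous fun P : Fin 5 → ℝ => (ed f P).p := by
    change Continuous fun P : Fin 5 → ℝ => ∑ s, if tb f s % 8 = 3 then P s else 0
    refine continuous_finsetSum _ fun s _ => ?_
    by_cases h : tb f s % 8 = 3
    · simp only [if_pos h]; exact hap s
    · simp only [if_neg h]; exact continuous_const
  have hT : Continuous fun P : Fin 5 → ℝ => (ed f P).T := by
    change Continuous fun P : Fin 5 → ℝ => ∑ s, ((tb f s / 8 : ℕ) : ℝ) * P s
    exact continuous_finsetSum _ fun s _ => continuous_const.mul (hap s)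
  cases hc : cone f
  · refine (cont_p0 (decide (f.1 < 13)) (fun _ => rfl) hal hbe hT fun P => ?_).continuousOn
    change (∑ s, if tb f s % 8 = 3 then P s else 0) = 0
    exact sum_eq_zero fun s _ => if_neg (cone_p f hc s)
  · refine cont_al0 (decide (f.1 < 13)) (fun _ => rfl) hbe hp hT (fun P y => ?_) fun P hP =>
      Pool.Agent.H43.G1.val f P hP
    change (∑ s, if tb f s % 8 = y.1 then P s else 0) = 0
    exact sum_eq_zero fun s _ => if_neg (cone_al f hc s y)

end Pool.Agent.H30.G1
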